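import Mathlib

/-!
Rounding of Bohr sets for MP_3c7b25_co.
-/

namespace Pool.Agent.Lib.MP_3c7b25_co

open Finset

lemma norm_coe_le (x : ℝ) : ‖(x : UnitAddCircle)‖ ≤ |x| := by
  rw [UnitAddCircle.norm_eq]
  have := round_le x 0
  simpa using this

lemma exists_round (θ : UnitAddCircle) {R : ℕ} (hR : 0 < R) :
    ∃ r : ℕ, r < R ∧ ∃ δ : ℝ, |δ| ≤ 1 / R ∧ θ = (((r : ℝ) / R + δ : ℝ) : UnitAddCircle) := by
  obtain ⟨t, rfl⟩ := QuotientAddGroup.mk_surjective θ
  have hR' : (0 : ℝ) < R := by exact_mod_cast hR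
  have h0 := Int.fract_nonneg t
  have h1 := Int.fract_lt_one t
  refine ⟨⌊(R : ℝ) * Int.fract t⌋₊, ?_, Int.fract t - (⌊(R : ℝ) * Int.fract t⌋₊ : ℝ) / R, ?_, ?_⟩
  · rw [Nat.floor_lt (by positivity)]
    nlinarith
  · have h2 := Nat.floor_le (show 0 ≤ (R : ℝ) * Int.fract t by positivity)
    have h3 := Nat.lt_floor_add_one ((R : ℝ) * Int.fract t)
    rw [abs_le]
    constructor
    · have : (⌊(R : ℝ) * Int.fract t⌋₊ : ℝ) / R ≤ Int.fract t := by
        rw [div_le_iff₀ hR']; linarith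
      have h4 : (0 : ℝ) ≤ 1 / R := by positivity
      linarith
    · have : Int.fract t ≤ (⌊(R : ℝ) * Int.fract t⌋₊ : ℝ) / R + 1 / R := by
        rw [← add_div, le_div_iff₀ hR']; linarith
      linarith
  · have h5 : (⌊(R : ℝ) * Int.fract t⌋₊ : ℝ) / R +
        (Int.fract t - (⌊(R : ℝ) * Int.fract t⌋₊ : ℝ) / R) = Int.fract t := by ring
    rw [h5]
    have h6 : t = Int.fract t + (⌊t⌋ : ℝ) := by
      rw [Int.fract_add_floor]
    conv_lhs => rw [h6]
    show ((Int.fract t + (⌊t⌋ : ℝ) : ℝ) : UnitAddCircle) = _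
    rw [AddCircle.coe_add]
    have h7 : (((⌊t⌋ : ℝ)) : UnitAddCircle) = 0 := by
      rw [AddCircle.coe_eq_zero_iff]
      exact ⟨⌊t⌋, by simp⟩
    rw [h7, add_zero]

/-- The cell of `n` for the rounded frequency `r / R`, `R = L * N`. -/
def cell (L N r n : ℕ) : ℕ := ((n * r) % (L * N)) / N

lemma cell_lt {L N : ℕ} (hL : 0 < L) (hN : 0 < N) (r n : ℕ) : cell L N r n < L := by
  unfold cell
  rw [Nat.div_lt_iff_lt_mul hN]
  exact Nat.mod_lt _ (by positivity)

lemma norm_le_of_cell {L N r : ℕ} (hL : 0 < L) (hN : 0 < N) {δ : ℝ}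
    (hδ : |δ| ≤ 1 / ((L * N : ℕ) : ℝ)) {n n' : ℕ} (hn : n < N) (hn' : n' < N)
    (h : cell L N r n = cell L N r n') :
    ‖((n : ℤ) - (n' : ℤ)) • (((r : ℝ) / ((L * N : ℕ) : ℝ) + δ : ℝ) : UnitAddCircle)‖ ≤ 2 / L := by
  have hL' : (0 : ℝ) < L := by exact_mod_cast hL
  have hN' : (0 : ℝ) < N := by exact_mod_cast hN
  set R : ℕ := L * N with hR
  have hRr : (R : ℝ) = L * N := by rw [hR]; push_cast; ring
  have hR0 : (0 : ℝ) < R := by rw [hRr]; positivity
  unfold cell at h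
  set u := (n * r) % R with hu
  set u' := (n' * r) % R with hu'
  obtain ⟨a, h1⟩ : ∃ a, n * r = R * a + u := ⟨_, (Nat.div_add_mod _ _).symm⟩
  obtain ⟨a', h2⟩ : ∃ a, n' * r = R * a + u' := ⟨_, (Nat.div_add_mod _ _).symm⟩
  have h3 : |(u : ℝ) - u'| ≤ N := by
    have h4 := Nat.div_add_mod u N
    have h5 := Nat.div_add_mod u' N
    have h6 := Nat.mod_lt u hN
    have h7 := Nat.mod_lt u' hN
    rw [h] at h4
    rw [abs_le]
    constructor
    · have : u' ≤ u + N := by omega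
      have : (u' : ℝ) ≤ u + N := by exact_mod_cast this
      linarith
    · have : u ≤ u' + N := by omega
      have : (u : ℝ) ≤ u' + N := by exact_mod_cast this
      linarith
  have h1' : (n : ℝ) * r = R * a + u := by exact_mod_cast h1
  have h2' : (n' : ℝ) * r = R * a' + u' := by exact_mod_cast h2
  have h8 : ((n : ℤ) - (n' : ℤ)) • (((r : ℝ) / R + δ : ℝ) : UnitAddCircle) =
      (((u : ℝ) - u') / R + ((n : ℝ) - n') * δ : ℝ) := by
    rw [← AddCircle.coe_zsmul, zsmul_eq_mul]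
    have h9 : ((((n : ℤ) - (n' : ℤ) : ℤ)) : ℝ) * ((r : ℝ) / R + δ) =
        (((u : ℝ) - u') / R + ((n : ℝ) - n') * δ) + ((((a : ℤ) - (a' : ℤ) : ℤ)) : ℝ) := by
      push_cast
      field_simp
      linear_combination h1' - h2'
    rw [h9, AddCircle.coe_add]
    have h7 : (((((a : ℤ) - (a' : ℤ) : ℤ)) : ℝ) : UnitAddCircle) = 0 := by
      rw [AddCircle.coe_eq_zero_iff]
      exact ⟨(a : ℤ) - (a' : ℤ), by simp⟩
    rw [h7, add_zero]
  rw [h8]
  refine (norm_coe_le _).trans ?_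
  refine (abs_add_le _ _).trans ?_
  have h10 : |((u : ℝ) - u') / R| ≤ 1 / L := by
    rw [abs_div, abs_of_pos hR0, div_le_div_iff₀ hR0 hL', hRr]
    nlinarith
  have h11 : |((n : ℝ) - n') * δ| ≤ 1 / L := by
    rw [abs_mul]
    have h12 : |(n : ℝ) - n'| ≤ N := by
      have a1 : (n : ℝ) < N := by exact_mod_cast hn
      have a2 : (n' : ℝ) < N := by exact_mod_cast hn'
      have a3 : (0 : ℝ) ≤ n := Nat.cast_nonneg n
      have a4 : (0 : ℝ) ≤ n' := Nat.cast_nonneg n'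
      rw [abs_le]; constructor <;> linarith
    calc |(n : ℝ) - n'| * |δ| ≤ N * (1 / R) :=
          mul_le_mul h12 hδ (abs_nonneg _) hN'.le
      _ = 1 / L := by rw [hRr]; field_simp
  calc _ ≤ 1 / (L : ℝ) + 1 / L := add_le_add h10 h11
    _ = 2 / L := by ring

/-- Pigeonhole: a large set on which the cells agree. -/
lemma exists_large_cell {D L N : ℕ} (hL : 0 < L) (hN : 0 < N) (r : Fin D → ℕ) :
    ∃ S : Finset ℕ, (∀ n ∈ S, n < N) ∧ N ≤ L ^ D * #S ∧
      ∀ n ∈ S, ∀ n' ∈ S, ∀ j, cell L N (r j) n = cell L N (r j) n' := by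
  classical
  set f : ℕ → (Fin D → ℕ) := fun n j => cell L N (r j) n with hf
  set P := Fintype.piFinset (fun _ : Fin D => Finset.range L) with hP
  have hmaps : ∀ n ∈ Finset.range N, f n ∈ P := by
    intro n _
    rw [hP, Fintype.mem_piFinset]
    intro j
    exact Finset.mem_range.2 (cell_lt hL hN _ _)
  have hcardP : #P = L ^ D := by
    rw [hP, Fintype.card_piFinset, Finset.prod_const, Finset.card_range, Finset.card_univ,
      Fintype.card_fin]
  have hsum := Finset.card_eq_sum_card_fiberwise hmaps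
  rw [Finset.card_range] at hsum
  have hex : ∃ y ∈ P, N ≤ L ^ D * #((Finset.range N).filter (fun n => f n = y)) := by
    by_contra hcon
    push Not at hcon
    have hPne : P.Nonempty := ⟨f 0, hmaps 0 (Finset.mem_range.2 hN)⟩
    have h1 : ∑ y ∈ P, L ^ D * #((Finset.range N).filter (fun n => f n = y)) < ∑ _y ∈ P, N :=
      Finset.sum_lt_sum_of_nonempty hPne (fun y hy => hcon y hy)
    rw [← Finset.mul_sum, ← hsum, Finset.sum_const, hcardP, smul_eq_mul] at h1
    exact lt_irrefl _ h1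
  obtain ⟨y, _, hy⟩ := hex
  refine ⟨(Finset.range N).filter (fun n => f n = y), ?_, hy, ?_⟩
  · intro n hn
    exact Finset.mem_range.1 (Finset.mem_filter.1 hn).1
  · intro n hn n' hn' j
    have h1 := (Finset.mem_filter.1 hn).2
    have h2 := (Finset.mem_filter.1 hn').2
    have h3 : f n = f n' := h1.trans h2.symm
    exact congrFun h3 j

end Pool.Agent.Lib.MP_3c7b25_co
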