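import Mathlib

/-!
The Sauer-Shelah step for MP_3c7b25_co.
-/

namespace Pool.Agent.Lib.MP_3c7b25_co

open Finset

/-- The signed sum of the vector `y` with signs given by the set `g` (plus on `g`). -/
def ip {d : ℕ} (g : Finset (Fin d)) (y : Fin d → ℤ) : ℤ := ∑ i, if i ∈ g then y i else - y i

lemma ip_add {d : ℕ} (g : Finset (Fin d)) (x y : Fin d → ℤ) : ip g (x + y) = ip g x + ip g y := by
  unfold ip
  rw [← Finset.sum_add_distrib]
  refine Finset.sum_congr rfl fun i _ => ?_
  split_ifs <;> simp [add_comm]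

lemma ip_neg {d : ℕ} (g : Finset (Fin d)) (x : Fin d → ℤ) : ip g (-x) = - ip g x := by
  unfold ip
  rw [← Finset.sum_neg_distrib]
  refine Finset.sum_congr rfl fun i _ => ?_
  split_ifs <;> simp

lemma ip_sub {d : ℕ} (g : Finset (Fin d)) (x y : Fin d → ℤ) : ip g (x - y) = ip g x - ip g y := by
  rw [sub_eq_add_neg, ip_add, ip_neg, sub_eq_add_neg]

lemma ip_zero {d : ℕ} (g : Finset (Fin d)) : ip g (0 : Fin d → ℤ) = 0 := by
  unfold ip; simp

lemma ip_sum {d : ℕ} (g : Finset (Fin d)) {ι : Type*} (s : Finset ι) (x : ι → Fin d → ℤ) :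
    ip g (∑ j ∈ s, x j) = ∑ j ∈ s, ip g (x j) := by
  classical
  induction s using Finset.induction_on with
  | empty => simp [ip_zero]
  | insert a s ha ih => rw [Finset.sum_insert ha, Finset.sum_insert ha, ip_add, ih]

lemma card_small (k : ℕ) :
    #((univ : Finset (Finset (Fin (10 * k)))).filter (fun I => #I < k)) ≤ 32 ^ k := by
  have h1 : (∑ I : Finset (Fin (10 * k)), 1 ^ #I * 8 ^ (Fintype.card (Fin (10 * k)) - #I)) =
      (1 + 8 : ℕ) ^ Fintype.card (Fin (10 * k)) := Fintype.sum_pow_mul_eq_add_pow _ 1 8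
  rw [Fintype.card_fin] at h1
  have h2 : #((univ : Finset (Finset (Fin (10 * k)))).filter (fun I => #I < k)) * 8 ^ (9 * k) ≤
      9 ^ (10 * k) := by
    calc _ = ∑ I ∈ (univ : Finset (Finset (Fin (10 * k)))).filter (fun I => #I < k),
          8 ^ (9 * k) := by rw [Finset.sum_const, smul_eq_mul]
      _ ≤ ∑ I ∈ (univ : Finset (Finset (Fin (10 * k)))).filter (fun I => #I < k),
          1 ^ #I * 8 ^ (10 * k - #I) := by
          apply Finset.sum_le_sum
          intro I hI
          rw [one_pow, one_mul]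
          apply Nat.pow_le_pow_right (by norm_num)
          have := (Finset.mem_filter.1 hI).2
          omega
      _ ≤ ∑ I : Finset (Fin (10 * k)), 1 ^ #I * 8 ^ (10 * k - #I) :=
          Finset.sum_le_sum_of_subset (Finset.filter_subset _ _)
      _ = _ := by rw [h1]
  have h3 : (9 : ℕ) ^ (10 * k) ≤ 32 ^ k * 8 ^ (9 * k) := by
    rw [pow_mul, pow_mul, ← mul_pow]
    exact Nat.pow_le_pow_left (by norm_num) k
  exact Nat.le_of_mul_le_mul_right (h2.trans h3) (by positivity)

lemma Icc_succ_int (B : ℕ) : Finset.Icc (-((B + 1 : ℕ) : ℤ)) ((B + 1 : ℕ) : ℤ) =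
    insert (-((B + 1 : ℕ) : ℤ)) (insert ((B + 1 : ℕ) : ℤ) (Finset.Icc (-(B : ℤ)) (B : ℤ))) := by
  ext t
  simp only [Finset.mem_Icc, Finset.mem_insert]
  push_cast
  omega

lemma sum_half (B : ℕ) : ∑ t ∈ Finset.Icc (-(B : ℤ)) (B : ℤ), (1 / 2 : ℚ) ^ t.natAbs =
    3 - 2 * (1 / 2) ^ B := by
  induction B with
  | zero => norm_num
  | succ B ih =>
    rw [Icc_succ_int, Finset.sum_insert, Finset.sum_insert, ih]
    · have h1 : (-((B + 1 : ℕ) : ℤ)).natAbs = B + 1 := by omega
      have h2 : (((B + 1 : ℕ) : ℤ)).natAbs = B + 1 := by omega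
      rw [h1, h2, pow_succ]; ring
    · simp only [Finset.mem_Icc]; push_cast; omega
    · simp only [Finset.mem_Icc, Finset.mem_insert]; push_cast; omega

lemma card_l1 {d : ℕ} (B s : ℕ) :
    #((Fintype.piFinset (fun _ : Fin d => Finset.Icc (-(B : ℤ)) (B : ℤ))).filter
      (fun y => ∑ i, (y i).natAbs ≤ s)) ≤ 3 ^ d * 2 ^ s := by
  have h1 : ∑ y ∈ Fintype.piFinset (fun _ : Fin d => Finset.Icc (-(B : ℤ)) (B : ℤ)),
      (1 / 2 : ℚ) ^ (∑ i, (y i).natAbs) ≤ 3 ^ d := by
    calc _ = ∑ y ∈ Fintype.piFinset (fun _ : Fin d => Finset.Icc (-(B : ℤ)) (B : ℤ)),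
          ∏ i, (1 / 2 : ℚ) ^ (y i).natAbs := by
          refine Finset.sum_congr rfl fun y _ => ?_
          rw [Finset.prod_pow_eq_pow_sum]
      _ = ∏ i : Fin d, ∑ t ∈ Finset.Icc (-(B : ℤ)) (B : ℤ), (1 / 2 : ℚ) ^ t.natAbs := by
          rw [Finset.prod_univ_sum]
      _ = (3 - 2 * (1 / 2) ^ B) ^ d := by
          rw [sum_half, Finset.prod_const, Finset.card_univ, Fintype.card_fin]
      _ ≤ 3 ^ d := by
          apply pow_le_pow_left₀
          · have : (1 / 2 : ℚ) ^ B ≤ 1 := pow_le_one₀ (by norm_num) (by norm_num)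
            linarith
          · have : (0 : ℚ) < (1 / 2 : ℚ) ^ B := by positivity
            linarith
  have h2 : (#((Fintype.piFinset (fun _ : Fin d => Finset.Icc (-(B : ℤ)) (B : ℤ))).filter
      (fun y => ∑ i, (y i).natAbs ≤ s)) : ℚ) * (1 / 2) ^ s ≤ 3 ^ d := by
    refine le_trans ?_ h1
    calc _ = ∑ y ∈ (Fintype.piFinset (fun _ : Fin d => Finset.Icc (-(B : ℤ)) (B : ℤ))).filter
          (fun y => ∑ i, (y i).natAbs ≤ s), (1 / 2 : ℚ) ^ s := by
          rw [Finset.sum_const, nsmul_eq_mul]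
      _ ≤ ∑ y ∈ (Fintype.piFinset (fun _ : Fin d => Finset.Icc (-(B : ℤ)) (B : ℤ))).filter
          (fun y => ∑ i, (y i).natAbs ≤ s), (1 / 2 : ℚ) ^ (∑ i, (y i).natAbs) := by
          apply Finset.sum_le_sum
          intro y hy
          exact pow_le_pow_of_le_one (by norm_num) (by norm_num) (Finset.mem_filter.1 hy).2
      _ ≤ _ := Finset.sum_le_sum_of_subset_of_nonneg (Finset.filter_subset _ _)
          (fun _ _ _ => by positivity)
  have h3 : (#((Fintype.piFinset (fun _ : Fin d => Finset.Icc (-(B : ℤ)) (B : ℤ))).filter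
      (fun y => ∑ i, (y i).natAbs ≤ s)) : ℚ) ≤ 3 ^ d * 2 ^ s := by
    have h4 : (1 / 2 : ℚ) ^ s * 2 ^ s = 1 := by rw [← mul_pow]; norm_num
    calc _ = (#((Fintype.piFinset (fun _ : Fin d => Finset.Icc (-(B : ℤ)) (B : ℤ))).filter
        (fun y => ∑ i, (y i).natAbs ≤ s)) : ℚ) * (1 / 2) ^ s * 2 ^ s := by
          rw [mul_assoc, h4, mul_one]
      _ ≤ _ := mul_le_mul_of_nonneg_right h2 (by positivity)
  exact_mod_cast h3

/-- If many sign vectors `g` have small signed sums on all differences of `T`, then `T` is small. -/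
lemma card_T_le {k s Q : ℕ} (T : Finset (Fin (10 * k) → ℤ))
    (hT : ∀ x ∈ T, ∀ i, |x i| ≤ (Q : ℤ)) (G : Finset (Finset (Fin (10 * k))))
    (hG : ∀ g ∈ G, ∀ x ∈ T, ∀ x' ∈ T, |ip g (x - x')| ≤ (s : ℤ)) (hbig : 32 ^ k < #G) :
    #T ≤ (2 * Q + 1) ^ (9 * k) * (3 ^ (10 * k) * 2 ^ s) := by
  classical
  -- a large shattered set
  obtain ⟨I, hI, hIk⟩ : ∃ I ∈ G.shatterer, k ≤ #I := by
    by_contra hcon
    push Not at hcon
    have h1 : G.shatterer ⊆
        (univ : Finset (Finset (Fin (10 * k)))).filter (fun I => #I < k) := by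
      intro I hI
      exact Finset.mem_filter.2 ⟨Finset.mem_univ _, hcon I hI⟩
    have h2 := (Finset.card_le_card_shatterer G).trans ((Finset.card_le_card h1).trans
      (card_small k))
    omega
  rw [Finset.mem_shatterer] at hI
  -- pairs that agree off `I` are close
  have hclose : ∀ x ∈ T, ∀ x' ∈ T, (∀ i, i ∉ I → x i = x' i) →
      ∑ i, ((x - x') i).natAbs ≤ s := by
    intro x hx x' hx' hag
    obtain ⟨g, hg, hgI⟩ := hI (Finset.filter_subset (fun i => 0 ≤ (x - x') i) I)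
    have h1 := hG g hg x hx x' hx'
    have h2 : ip g (x - x') = ∑ i, (((x - x') i).natAbs : ℤ) := by
      unfold ip
      refine Finset.sum_congr rfl fun i _ => ?_
      by_cases hi : i ∈ I
      · have h3 : i ∈ g ↔ 0 ≤ (x - x') i := by
          have : i ∈ I ∩ g ↔ i ∈ I.filter (fun i => 0 ≤ (x - x') i) := by rw [hgI]
          rw [Finset.mem_inter, Finset.mem_filter] at this
          tauto
        by_cases h4 : 0 ≤ (x - x') i
        · rw [if_pos (h3.2 h4)]; omega
        · rw [if_neg (fun h => h4 (h3.1 h))]; omega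
      · have h5 : (x - x') i = 0 := by rw [Pi.sub_apply, hag i hi, sub_self]
        rw [h5]; simp
    rw [h2] at h1
    have h3 := le_of_abs_le h1
    exact_mod_cast h3
  -- the restriction map
  set f : (Fin (10 * k) → ℤ) → (Fin (10 * k) → ℤ) := fun x i => if i ∈ I then 0 else x i with hf
  have hfib : ∀ b ∈ T.image f, #(T.filter (fun x => f x = b)) ≤ 3 ^ (10 * k) * 2 ^ s := by
    intro b hb
    obtain ⟨x₀, hx₀, rfl⟩ := Finset.mem_image.1 hb
    refine le_trans ?_ (card_l1 (d := 10 * k) (2 * Q) s)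
    apply Finset.card_le_card_of_injOn (fun x => x - x₀)
    · intro x hx
      rw [Finset.mem_coe, Finset.mem_filter] at hx
      have hag : ∀ i, i ∉ I → x i = x₀ i := by
        intro i hi
        have := congrFun hx.2 i
        simp only [hf, if_neg hi] at this
        exact this
      rw [Finset.mem_coe, Finset.mem_filter, Fintype.mem_piFinset]
      refine ⟨fun i => ?_, hclose x hx.1 x₀ hx₀ hag⟩
      have h1 := abs_le.1 (hT x hx.1 i)
      have h2 := abs_le.1 (hT x₀ hx₀ i)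
      rw [Finset.mem_Icc]
      show -((2 * Q : ℕ) : ℤ) ≤ x i - x₀ i ∧ x i - x₀ i ≤ ((2 * Q : ℕ) : ℤ)
      push_cast
      constructor <;> linarith [h1.1, h1.2, h2.1, h2.2]
    · intro x _ y _ hxy
      exact sub_left_injective hxy
  have hcard := Finset.card_le_mul_card_image T (3 ^ (10 * k) * 2 ^ s) hfib
  have himg : #(T.image f) ≤ (2 * Q + 1) ^ (9 * k) := by
    have hsub : T.image f ⊆ Fintype.piFinset (fun i : Fin (10 * k) =>
        if i ∈ I then ({0} : Finset ℤ) else Finset.Icc (-(Q : ℤ)) (Q : ℤ)) := by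
      intro y hy
      obtain ⟨x, hx, rfl⟩ := Finset.mem_image.1 hy
      rw [Fintype.mem_piFinset]
      intro i
      by_cases hi : i ∈ I
      · simp [hf, hi]
      · simp only [hf, if_neg hi, Finset.mem_Icc]
        exact abs_le.1 (hT x hx i)
    refine (Finset.card_le_card hsub).trans ?_
    rw [Fintype.card_piFinset]
    have h1 : ∀ i : Fin (10 * k), #(if i ∈ I then ({0} : Finset ℤ) else
        Finset.Icc (-(Q : ℤ)) (Q : ℤ)) = if i ∈ I then 1 else 2 * Q + 1 := by
      intro i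
      split_ifs
      · simp
      · rw [Int.card_Icc]; omega
    rw [Finset.prod_congr rfl (fun i _ => h1 i), Finset.prod_ite, Finset.prod_const_one, one_mul,
      Finset.prod_const]
    apply Nat.pow_le_pow_right (by omega)
    have h2 : #((univ : Finset (Fin (10 * k))).filter (fun i => i ∉ I)) = 10 * k - #I := by
      rw [Finset.filter_not, Finset.filter_mem_eq_inter, Finset.univ_inter,
        Finset.card_sdiff_of_subset (Finset.subset_univ _), Finset.card_univ, Fintype.card_fin]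
    rw [h2]; omega
  calc #T ≤ 3 ^ (10 * k) * 2 ^ s * #(T.image f) := hcard
    _ ≤ 3 ^ (10 * k) * 2 ^ s * (2 * Q + 1) ^ (9 * k) := Nat.mul_le_mul_left _ himg
    _ = _ := by ring

end Pool.Agent.Lib.MP_3c7b25_co
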