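import Mathlib
import Pool.Agent.Lib.MP_3c7b25_co.Shatter

/-!
Concentration of signed sums for MP_3c7b25_co.
-/

namespace Pool.Agent.Lib.MP_3c7b25_co

open Finset

lemma sum_exp_ip {d : ℕ} (l : ℝ) (y : Fin d → ℤ) :
    ∑ g : Finset (Fin d), Real.exp (l * (ip g y : ℤ)) =
      ∏ i, (Real.exp (l * y i) + Real.exp (-(l * y i))) := by
  rw [Finset.prod_add, Finset.powerset_univ]
  refine Finset.sum_congr rfl fun g _ => ?_
  unfold ip
  rw [← Real.exp_sum, ← Real.exp_sum, ← Real.exp_add]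
  congr 1
  push_cast
  rw [Finset.mul_sum]
  have h1 : ∀ i : Fin d, l * ((if i ∈ g then (y i : ℤ) else -(y i) : ℤ) : ℝ) =
      if i ∈ g then l * y i else -(l * y i) := by
    intro i
    split_ifs
    · rfl
    · push_cast; ring
  push_cast at h1
  rw [Finset.sum_congr rfl (fun i _ => h1 i), Finset.sum_ite]
  congr 1
  · refine Finset.sum_congr ?_ (fun _ _ => rfl)
    ext i; simp
  · refine Finset.sum_congr ?_ (fun _ _ => rfl)
    ext i; simp

lemma sum_exp_le {d : ℕ} (l q : ℝ) (y : Fin d → ℤ) (hy : ∀ i, |(y i : ℝ)| ≤ q) :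
    ∑ g : Finset (Fin d), Real.exp (l * (ip g y : ℤ)) ≤ 2 ^ d * Real.exp (d * (l ^ 2 * q ^ 2 / 2)) := by
  rw [sum_exp_ip]
  have h1 : ∀ i : Fin d, Real.exp (l * y i) + Real.exp (-(l * y i)) ≤
      2 * Real.exp (l ^ 2 * q ^ 2 / 2) := by
    intro i
    have h2 := Real.cosh_le_exp_half_sq (l * y i)
    rw [Real.cosh_eq] at h2
    have h3 : (l * y i) ^ 2 / 2 ≤ l ^ 2 * q ^ 2 / 2 := by
      have h4 : (y i : ℝ) ^ 2 ≤ q ^ 2 := by
        rw [← sq_abs]
        exact pow_le_pow_left₀ (abs_nonneg _) (hy i) 2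
      nlinarith [sq_nonneg l]
    have h5 := Real.exp_le_exp.2 h3
    linarith
  calc _ ≤ ∏ _i : Fin d, (2 * Real.exp (l ^ 2 * q ^ 2 / 2)) := by
        apply Finset.prod_le_prod
        · intro i _; positivity
        · intro i _; exact h1 i
    _ = _ := by
        rw [Finset.prod_const, Finset.card_univ, Fintype.card_fin, mul_pow, ← Real.exp_nat_mul]

lemma conc_one {d : ℕ} (hd : 0 < d) {q t : ℝ} (hq : 0 < q) (ht : 0 ≤ t) (y : Fin d → ℤ)
    (hy : ∀ i, |(y i : ℝ)| ≤ q) :
    (#((univ : Finset (Finset (Fin d))).filter (fun g => t < (ip g y : ℤ))) : ℝ) *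
      Real.exp (t ^ 2 / (2 * d * q ^ 2)) ≤ 2 ^ d := by
  have hd' : (0 : ℝ) < d := by exact_mod_cast hd
  set l : ℝ := t / (d * q ^ 2) with hl
  have hl0 : 0 ≤ l := by positivity
  have h1 := sum_exp_le l q y hy
  have h2 : (#((univ : Finset (Finset (Fin d))).filter (fun g => t < (ip g y : ℤ))) : ℝ) *
      Real.exp (l * t) ≤ ∑ g : Finset (Fin d), Real.exp (l * (ip g y : ℤ)) := by
    calc _ = ∑ g ∈ (univ : Finset (Finset (Fin d))).filter (fun g => t < (ip g y : ℤ)),
          Real.exp (l * t) := by rw [Finset.sum_const, nsmul_eq_mul]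
      _ ≤ ∑ g ∈ (univ : Finset (Finset (Fin d))).filter (fun g => t < (ip g y : ℤ)),
          Real.exp (l * (ip g y : ℤ)) := by
          apply Finset.sum_le_sum
          intro g hg
          apply Real.exp_le_exp.2
          exact mul_le_mul_of_nonneg_left (Finset.mem_filter.1 hg).2.le hl0
      _ ≤ _ := Finset.sum_le_sum_of_subset_of_nonneg (Finset.filter_subset _ _)
          (fun _ _ _ => (Real.exp_pos _).le)
  have h3 := h2.trans h1
  have e1 : l * t = t ^ 2 / (2 * d * q ^ 2) + (d * (l ^ 2 * q ^ 2 / 2)) := by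
    rw [hl]; field_simp; ring
  rw [e1, Real.exp_add, ← mul_assoc] at h3
  exact le_of_mul_le_mul_right h3 (Real.exp_pos _)

lemma conc {d : ℕ} (hd : 0 < d) {q t : ℝ} (hq : 0 < q) (ht : 0 ≤ t) (y : Fin d → ℤ)
    (hy : ∀ i, |(y i : ℝ)| ≤ q) :
    (#((univ : Finset (Finset (Fin d))).filter (fun g => t < |((ip g y : ℤ) : ℝ)|)) : ℝ) *
      Real.exp (t ^ 2 / (2 * d * q ^ 2)) ≤ 2 * 2 ^ d := by
  have h1 := conc_one hd hq ht y hy
  have h2 := conc_one hd hq ht (-y) (fun i => by simpa using hy i)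
  have h3 : #((univ : Finset (Finset (Fin d))).filter (fun g => t < |((ip g y : ℤ) : ℝ)|)) ≤
      #((univ : Finset (Finset (Fin d))).filter (fun g => t < (ip g y : ℤ))) +
      #((univ : Finset (Finset (Fin d))).filter (fun g => t < (ip g (-y) : ℤ))) := by
    refine le_trans (Finset.card_le_card ?_) (Finset.card_union_le _ _)
    intro g hg
    rw [Finset.mem_union, Finset.mem_filter, Finset.mem_filter]
    have h := (Finset.mem_filter.1 hg).2
    rw [ip_neg]
    push_cast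
    rcases lt_abs.1 h with h | h
    · exact Or.inl ⟨Finset.mem_univ _, h⟩
    · exact Or.inr ⟨Finset.mem_univ _, h⟩
  have h4 : (#((univ : Finset (Finset (Fin d))).filter (fun g => t < |((ip g y : ℤ) : ℝ)|)) : ℝ) ≤
      #((univ : Finset (Finset (Fin d))).filter (fun g => t < (ip g y : ℤ))) +
      #((univ : Finset (Finset (Fin d))).filter (fun g => t < (ip g (-y) : ℤ))) := by
    exact_mod_cast h3
  have h5 := mul_le_mul_of_nonneg_right h4 (Real.exp_pos (t ^ 2 / (2 * d * q ^ 2))).le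
  linarith [h5, h1, h2]

end Pool.Agent.Lib.MP_3c7b25_co
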