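import Mathlib

/-!
Digit expansions for MP_3c7b25_co.
-/

namespace Pool.Agent.Lib.MP_3c7b25_co

open Finset

/-- Evaluation of a vector of digits in base `M`. -/
def ev (M : ℤ) {d : ℕ} (x : Fin d → ℤ) : ℤ := ∑ i, x i * M ^ (i : ℕ)

lemma ev_add (M : ℤ) {d : ℕ} (x y : Fin d → ℤ) : ev M (x + y) = ev M x + ev M y := by
  unfold ev
  rw [← Finset.sum_add_distrib]
  refine Finset.sum_congr rfl fun i _ => ?_
  rw [Pi.add_apply]; ring

lemma ev_sub (M : ℤ) {d : ℕ} (x y : Fin d → ℤ) : ev M (x - y) = ev M x - ev M y := by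
  unfold ev
  rw [← Finset.sum_sub_distrib]
  refine Finset.sum_congr rfl fun i _ => ?_
  rw [Pi.sub_apply]; ring

lemma ev_zero (M : ℤ) {d : ℕ} : ev M (0 : Fin d → ℤ) = 0 := by
  unfold ev; simp

lemma ev_sum (M : ℤ) {d : ℕ} {ι : Type*} (s : Finset ι) (x : ι → Fin d → ℤ) :
    ev M (∑ j ∈ s, x j) = ∑ j ∈ s, ev M (x j) := by
  classical
  induction s using Finset.induction_on with
  | empty => simp [ev_zero]
  | insert a s ha ih => rw [Finset.sum_insert ha, Finset.sum_insert ha, ev_add, ih]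

lemma ev_succ (M : ℤ) {d : ℕ} (x : Fin (d + 1) → ℤ) :
    ev M x = x 0 + M * ev M (fun i : Fin d => x i.succ) := by
  unfold ev
  rw [Fin.sum_univ_succ, Finset.mul_sum]
  congr 1
  · simp
  · refine Finset.sum_congr rfl fun i _ => ?_
    rw [Fin.val_succ, pow_succ]; ring

/-- Uniqueness of digits. -/
lemma eq_zero_of_ev {M : ℤ} (hM : 0 < M) : ∀ {d : ℕ} (x : Fin d → ℤ), (∀ i, |x i| < M) →
    ev M x = 0 → x = 0
  | 0, x, _, _ => by ext i; exact i.elim0
  | d + 1, x, hx, h => by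
    rw [ev_succ] at h
    have h0 : x 0 = 0 := by
      apply Int.eq_zero_of_abs_lt_dvd _ (hx 0)
      exact ⟨- ev M (fun i : Fin d => x i.succ), by linarith⟩
    have h1 : ev M (fun i : Fin d => x i.succ) = 0 := by
      rw [h0, zero_add] at h
      rcases mul_eq_zero.1 h with h | h
      · exact absurd h hM.ne'
      · exact h
    have h2 := eq_zero_of_ev hM (fun i : Fin d => x i.succ) (fun i => hx i.succ) h1
    ext i
    refine Fin.cases h0 (fun j => ?_) i
    exact congrFun h2 j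

lemma ev_nonneg {M : ℤ} (hM : 0 < M) {d : ℕ} (x : Fin d → ℤ) (hx : ∀ i, 0 ≤ x i) :
    0 ≤ ev M x :=
  Finset.sum_nonneg fun i _ => mul_nonneg (hx i) (by positivity)

lemma ev_lt {M : ℤ} (hM : 0 < M) : ∀ {d : ℕ} (x : Fin d → ℤ), (∀ i, x i < M) →
    ev M x + 1 ≤ M ^ d
  | 0, x, _ => by simp [ev]
  | d + 1, x, hx => by
    rw [ev_succ, pow_succ]
    have h := ev_lt hM (fun i : Fin d => x i.succ) (fun i => hx i.succ)
    have h0 := hx 0
    nlinarith

end Pool.Agent.Lib.MP_3c7b25_co
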