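import Mathlib

/-!
The union bound for MP_3c7b25_co.
-/

namespace Pool.Agent.Lib.MP_3c7b25_co

open Finset

lemma card_coord {α : Type*} [Fintype α] [DecidableEq α] (n : ℕ) (j : Fin n) (B : Finset α) :
    #((univ : Finset (Fin n → α)).filter (fun γ => γ j ∈ B)) =
      #B * (Fintype.card α) ^ (n - 1) := by
  have h1 : (univ : Finset (Fin n → α)).filter (fun γ => γ j ∈ B) =
      Fintype.piFinset (fun i => if i = j then B else univ) := by
    ext γ
    rw [Finset.mem_filter, Fintype.mem_piFinset]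
    constructor
    · rintro ⟨_, h⟩ i
      by_cases hi : i = j
      · subst hi; simpa using h
      · simp [hi]
    · intro h
      exact ⟨Finset.mem_univ _, by simpa using h j⟩
  rw [h1, Fintype.card_piFinset, ← Finset.mul_prod_erase univ _ (Finset.mem_univ j)]
  have h2 : ∏ i ∈ univ.erase j, #(if i = j then B else (univ : Finset α)) =
      ∏ i ∈ univ.erase j, Fintype.card α := by
    refine Finset.prod_congr rfl fun i hi => ?_
    rw [if_neg (Finset.ne_of_mem_erase hi), Finset.card_univ]
  rw [h2, Finset.prod_const, Finset.card_erase_of_mem (Finset.mem_univ j), Finset.card_univ,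
    Fintype.card_fin]
  simp

lemma exists_choice {α ι β : Type*} [Fintype α] [DecidableEq α] [DecidableEq ι] [DecidableEq β]
    (n : ℕ) (R : Finset ι) (G : ι → Finset α) (b1 b2 : ℕ) (hG : ∀ r ∈ R, #(G r) ≤ b1)
    (X : Finset β) (hX : X.Nonempty) (Bad : β → Finset α) (hBad : ∀ x ∈ X, #(Bad x) ≤ b2)
    (hineq : #R * b1 ^ n + 2 * (n * (b2 * (Fintype.card α) ^ (n - 1))) < (Fintype.card α) ^ n) :
    ∃ γ : Fin n → α, (∀ r ∈ R, ∃ j, γ j ∉ G r) ∧
      #X ≤ 2 * #(X.filter (fun x => ∀ j, γ j ∉ Bad x)) := by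
  classical
  have key : ∑ γ : Fin n → α, (#X * #(R.filter (fun r => ∀ j, γ j ∈ G r)) +
      2 * #(X.filter (fun x => ∃ j, γ j ∈ Bad x))) < ∑ _γ : Fin n → α, #X := by
    rw [Finset.sum_add_distrib, ← Finset.mul_sum, ← Finset.mul_sum]
    have h1 : ∑ γ : Fin n → α, #(R.filter (fun r => ∀ j, γ j ∈ G r)) ≤ #R * b1 ^ n := by
      calc _ = ∑ γ : Fin n → α, ∑ r ∈ R, (if (∀ j, γ j ∈ G r) then 1 else 0) := by
            refine Finset.sum_congr rfl fun γ _ => ?_
            rw [Finset.card_filter]
        _ = ∑ r ∈ R, ∑ γ : Fin n → α, (if (∀ j, γ j ∈ G r) then 1 else 0) := Finset.sum_comm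
        _ = ∑ r ∈ R, #(G r) ^ n := by
            refine Finset.sum_congr rfl fun r _ => ?_
            rw [← Finset.card_filter]
            have h2 : (univ : Finset (Fin n → α)).filter (fun γ => ∀ j, γ j ∈ G r) =
                Fintype.piFinset (fun _ => G r) := by
              ext γ
              simp [Fintype.mem_piFinset]
            rw [h2, Fintype.card_piFinset, Finset.prod_const, Finset.card_univ, Fintype.card_fin]
        _ ≤ ∑ _r ∈ R, b1 ^ n := Finset.sum_le_sum fun r hr => Nat.pow_le_pow_left (hG r hr) n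
        _ = _ := by rw [Finset.sum_const, smul_eq_mul]
    have h3 : ∑ γ : Fin n → α, #(X.filter (fun x => ∃ j, γ j ∈ Bad x)) ≤
        #X * (n * (b2 * (Fintype.card α) ^ (n - 1))) := by
      calc _ = ∑ γ : Fin n → α, ∑ x ∈ X, (if (∃ j, γ j ∈ Bad x) then 1 else 0) := by
            refine Finset.sum_congr rfl fun γ _ => ?_
            rw [Finset.card_filter]
        _ = ∑ x ∈ X, ∑ γ : Fin n → α, (if (∃ j, γ j ∈ Bad x) then 1 else 0) := Finset.sum_comm
        _ ≤ ∑ x ∈ X, ∑ γ : Fin n → α, ∑ j, (if γ j ∈ Bad x then 1 else 0) := by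
            refine Finset.sum_le_sum fun x _ => Finset.sum_le_sum fun γ _ => ?_
            split_ifs with h
            · obtain ⟨j, hj⟩ := h
              calc 1 = (if γ j ∈ Bad x then 1 else 0) := by rw [if_pos hj]
                _ ≤ _ := Finset.single_le_sum (f := fun j => if γ j ∈ Bad x then 1 else 0)
                    (fun _ _ => Nat.zero_le _) (Finset.mem_univ j)
            · exact Nat.zero_le _
        _ = ∑ x ∈ X, ∑ j : Fin n, #(Bad x) * (Fintype.card α) ^ (n - 1) := by
            refine Finset.sum_congr rfl fun x _ => ?_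
            rw [Finset.sum_comm]
            refine Finset.sum_congr rfl fun j _ => ?_
            rw [← Finset.card_filter, card_coord]
        _ ≤ ∑ x ∈ X, n * (b2 * (Fintype.card α) ^ (n - 1)) := by
            refine Finset.sum_le_sum fun x hx => ?_
            rw [Finset.sum_const, Finset.card_univ, Fintype.card_fin, smul_eq_mul]
            exact Nat.mul_le_mul_left _ (Nat.mul_le_mul_right _ (hBad x hx))
        _ = _ := by rw [Finset.sum_const, smul_eq_mul]
    have h4 : ∑ _γ : Fin n → α, #X = #X * (Fintype.card α) ^ n := by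
      rw [Finset.sum_const, Finset.card_univ, Fintype.card_fun, Fintype.card_fin, smul_eq_mul,
        mul_comm]
    rw [h4]
    have hX' : 0 < #X := Finset.card_pos.2 hX
    calc _ ≤ #X * (#R * b1 ^ n) + 2 * (#X * (n * (b2 * (Fintype.card α) ^ (n - 1)))) :=
          Nat.add_le_add (Nat.mul_le_mul_left _ h1) (Nat.mul_le_mul_left _ h3)
      _ = #X * (#R * b1 ^ n + 2 * (n * (b2 * (Fintype.card α) ^ (n - 1)))) := by ring
      _ < #X * (Fintype.card α) ^ n := Nat.mul_lt_mul_of_pos_left hineq hX'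
  obtain ⟨γ, _, hγ⟩ := Finset.exists_lt_of_sum_lt key
  have hX' : 0 < #X := Finset.card_pos.2 hX
  refine ⟨γ, ?_, ?_⟩
  · intro r hr
    by_contra hcon
    push Not at hcon
    have h1 : 1 ≤ #(R.filter (fun r => ∀ j, γ j ∈ G r)) :=
      Finset.card_pos.2 ⟨r, Finset.mem_filter.2 ⟨hr, hcon⟩⟩
    have h2 : #X * 1 ≤ #X * #(R.filter (fun r => ∀ j, γ j ∈ G r)) := Nat.mul_le_mul_left _ h1
    omega
  · have h1 : #(X.filter (fun x => ∃ j, γ j ∈ Bad x)) +
        #(X.filter (fun x => ¬ ∃ j, γ j ∈ Bad x)) = #X := Finset.card_filter_add_card_filter_not _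
    have h2 : X.filter (fun x => ¬ ∃ j, γ j ∈ Bad x) = X.filter (fun x => ∀ j, γ j ∉ Bad x) := by
      ext x
      simp
    rw [h2] at h1
    omega

end Pool.Agent.Lib.MP_3c7b25_co
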