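import Mathlib
import Pool.Agent.Lib.MP_3c7b25_co.Digits
import Pool.Agent.Lib.MP_3c7b25_co.Shatter
import Pool.Agent.Lib.MP_3c7b25_co.Conc
import Pool.Agent.Lib.MP_3c7b25_co.Union
import Pool.Agent.Lib.MP_3c7b25_co.Bohr

/-!
The digit-box construction for MP_3c7b25_co.
-/

namespace Pool.Agent.Lib.MP_3c7b25_co

open Finset

/-- The parameters: `q`, then `s₁`. -/
def qq (L K : ℕ) : ℕ := 3 ^ 10 * 2 * L ^ (10 * K)

/-- `s₁`. -/
def ss (m L K : ℕ) : ℕ := 3000000 * m ^ 4 * (qq L K) ^ 5 * K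

lemma exp_big {m q K : ℕ} (hm : 1 ≤ m) (hq : 1 ≤ q) (hK : 1 ≤ K) {s k n d : ℕ}
    (hs : s = 3000000 * m ^ 4 * q ^ 5 * K) (hk : k = m * s) (hn : n = 111 * (4 * m * q) * K * k)
    (hd : d = 10 * k) :
    (8 * n : ℝ) < Real.exp ((s : ℝ) ^ 2 / (2 * d * (q : ℝ) ^ 2)) := by
  have hm' : (1 : ℝ) ≤ m := by exact_mod_cast hm
  have hq' : (1 : ℝ) ≤ q := by exact_mod_cast hq
  have hK' : (1 : ℝ) ≤ K := by exact_mod_cast hK
  have hs' : (s : ℝ) = 3000000 * m ^ 4 * q ^ 5 * K := by rw [hs]; push_cast; ring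
  have hs0 : (0 : ℝ) < s := by rw [hs']; positivity
  have hk' : (k : ℝ) = m * s := by rw [hk]; push_cast; ring
  have hd' : (d : ℝ) = 10 * (m * s) := by rw [hd]; push_cast; rw [hk']
  have hn' : (n : ℝ) = 111 * (4 * m * q) * K * (m * s) := by rw [hn]; push_cast; rw [hk']
  set x : ℝ := (s : ℝ) ^ 2 / (2 * d * (q : ℝ) ^ 2) with hx
  have hx1 : x = s / (20 * m * q ^ 2) := by
    rw [hx, hd']; field_simp; ring
  have hx0 : 0 ≤ x := by rw [hx1]; positivity
  have h1 := Real.quadratic_le_exp_of_nonneg hx0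
  have h2 : (8 * n : ℝ) < x ^ 2 / 2 := by
    rw [hx1, hn', div_pow, div_div, lt_div_iff₀ (by positivity)]
    have h3 : 8 * (111 * (4 * (m : ℝ) * q) * K * (m * s)) * ((20 * m * q ^ 2) ^ 2 * 2) =
        2841600 * (m ^ 4 * q ^ 5 * K) * s := by ring
    rw [h3]
    have h4 : (s : ℝ) ^ 2 = 3000000 * (m ^ 4 * q ^ 5 * K) * s := by
      rw [pow_two]; nth_rewrite 1 [hs']; ring
    rw [h4]
    have h5 : 0 < (m : ℝ) ^ 4 * q ^ 5 * K * s := by positivity
    nlinarith
  linarith

lemma count_ineq {m q K L : ℕ} (hm : 1 ≤ m) (hL : 1 ≤ L) (hK : 1 ≤ K) (hLq : L ≤ q) {k n : ℕ}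
    (hk : 1 ≤ k) (hn : n = 111 * (4 * m * q) * K * k) :
    2 * ((L * (4 * m * q) ^ (10 * k)) ^ (K * (10 * k)) * (32 ^ k) ^ n) ≤
      (2 ^ (10 * k)) ^ n := by
  set M := 4 * m * q with hM
  have hq : 1 ≤ q := hL.trans hLq
  have hLM : L ≤ M := by rw [hM]; nlinarith
  have hM1 : 1 ≤ M := hL.trans hLM
  have h1 : L * M ^ (10 * k) ≤ M ^ (11 * k) := by
    calc L * M ^ (10 * k) ≤ M * M ^ (10 * k) := Nat.mul_le_mul_right _ hLM
      _ = M ^ (10 * k + 1) := by rw [pow_succ]; ring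
      _ ≤ M ^ (11 * k) := Nat.pow_le_pow_right hM1 (by omega)
  have h2 : (L * M ^ (10 * k)) ^ (K * (10 * k)) ≤ 32 ^ (M * (110 * K * k * k)) := by
    calc _ ≤ (M ^ (11 * k)) ^ (K * (10 * k)) := Nat.pow_le_pow_left h1 _
      _ = M ^ (110 * K * k * k) := by rw [← pow_mul]; congr 1; ring
      _ ≤ (32 ^ M) ^ (110 * K * k * k) :=
          Nat.pow_le_pow_left (Nat.lt_pow_self (by norm_num)).le _
      _ = _ := by rw [← pow_mul]
  have h3 : (2 : ℕ) ≤ 32 ^ (M * (K * k * k)) := by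
    have : 1 ≤ M * (K * k * k) := Nat.one_le_iff_ne_zero.2 (by positivity)
    calc 2 ≤ 32 ^ 1 := by norm_num
      _ ≤ _ := Nat.pow_le_pow_right (by norm_num) this
  have h4 : (2 ^ (10 * k)) ^ n = 32 ^ (k * n) * 32 ^ (k * n) := by
    rw [← pow_add, ← pow_mul, show (32 : ℕ) = 2 ^ 5 by norm_num, ← pow_mul]
    congr 1; ring
  have h5 : 32 ^ (k * n) = 32 ^ (M * (K * k * k)) * 32 ^ (M * (110 * K * k * k)) := by
    rw [← pow_add, hn]
    congr 1; ring
  calc _ = (2 * (L * M ^ (10 * k)) ^ (K * (10 * k))) * 32 ^ (k * n) := by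
        rw [← pow_mul 32 k n]; ring
    _ ≤ (32 ^ (M * (K * k * k)) * 32 ^ (M * (110 * K * k * k))) * 32 ^ (k * n) := by
        apply Nat.mul_le_mul_right
        exact Nat.mul_le_mul h3 h2
    _ = _ := by rw [h4, ← h5]

theorem main_finite (m L K : ℕ) (hm : 1 ≤ m) (hL : 1 ≤ L) (hK : 1 ≤ K) :
    ∃ q d : ℕ, 1 ≤ q ∧ 1 ≤ d ∧ ∃ X : Finset (Fin d → ℤ),
      (∀ x ∈ X, ∀ i, 0 ≤ x i ∧ x i ≤ (q : ℤ)) ∧ (q + 1) ^ d ≤ 2 * #X ∧
      ∀ f : Fin (K * d) → UnitAddCircle, ∃ n : ℤ, |n| ≤ (((4 * m * q) ^ d : ℕ) : ℤ) ∧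
        (∀ j, ‖n • f j‖ ≤ 2 / L) ∧
        ∀ a b : Fin m → (Fin d → ℤ), (∀ i, a i ∈ X) → (∀ i, b i ∈ X) →
          n ≠ ev ((4 * m * q : ℕ) : ℤ) (∑ i, a i - ∑ i, b i) := by
  classical
  set q := qq L K with hq
  set s := ss m L K with hs
  set k := m * s with hk
  set n := 111 * (4 * m * q) * K * k with hn
  set M := 4 * m * q with hM
  have hq1 : 1 ≤ q := by rw [hq]; unfold qq; exact Nat.one_le_iff_ne_zero.2 (by positivity)
  have hs1 : 1 ≤ s := by
    rw [hs]; unfold ss; rw [← hq]; exact Nat.one_le_iff_ne_zero.2 (by positivity)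
  have hk1 : 1 ≤ k := by rw [hk]; exact Nat.one_le_iff_ne_zero.2 (by positivity)
  have hM1 : 1 ≤ M := by rw [hM]; exact Nat.one_le_iff_ne_zero.2 (by positivity)
  have hn1 : 1 ≤ n := by rw [hn]; exact Nat.one_le_iff_ne_zero.2 (by positivity)
  have hLq : L ≤ q := by
    rw [hq]; unfold qq
    calc L = L ^ 1 := (pow_one L).symm
      _ ≤ L ^ (10 * K) := Nat.pow_le_pow_right hL (by omega)
      _ ≤ 3 ^ 10 * 2 * L ^ (10 * K) := Nat.le_mul_of_pos_left _ (by norm_num)
  set d := 10 * k with hd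
  set N := M ^ d with hN
  have hN1 : 0 < N := by rw [hN]; positivity
  set R₀ := L * N with hR₀
  set R : Finset (Fin (K * d) → ℕ) := Fintype.piFinset (fun _ => Finset.range R₀) with hR
  have hRcard : #R = R₀ ^ (K * d) := by
    rw [hR, Fintype.card_piFinset, Finset.prod_const, Finset.card_range, Finset.card_univ,
      Fintype.card_fin]
  -- cells
  have hcell := fun r : Fin (K * d) → ℕ => exists_large_cell (D := K * d) hL hN1 r
  choose S hSlt hSbig hScell using hcell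
  have hSne : ∀ r, ∃ n₀, n₀ ∈ S r := by
    intro r
    have h1 := hSbig r
    have h2 : 0 < #(S r) := by
      rcases Nat.eq_zero_or_pos #(S r) with h | h
      · rw [h, mul_zero] at h1; omega
      · exact h
    exact Finset.card_pos.1 h2
  choose n₀ hn₀ using hSne
  set box := Fintype.piFinset (fun _ : Fin d => Finset.Icc (-((m * q : ℕ) : ℤ)) ((m * q : ℕ) : ℤ))
    with hbox
  set T : (Fin (K * d) → ℕ) → Finset (Fin d → ℤ) := fun r =>
    box.filter (fun x => ∃ a ∈ S r, (a : ℤ) = n₀ r + ev (M : ℤ) x) with hT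
  set G : (Fin (K * d) → ℕ) → Finset (Finset (Fin d)) := fun r =>
    if N ≤ L ^ (K * d) * #(T r) then
      univ.filter (fun g => ∀ x ∈ T r, ∀ x' ∈ T r, |ip g (x - x')| ≤ (k : ℤ)) else ∅ with hG
  have hTbox : ∀ r, ∀ x ∈ T r, ∀ i, |x i| ≤ ((m * q : ℕ) : ℤ) := by
    intro r x hx i
    have h1 := (Finset.mem_filter.1 hx).1
    rw [hbox, Fintype.mem_piFinset] at h1
    exact abs_le.2 (Finset.mem_Icc.1 (h1 i))
  have hGcard : ∀ r ∈ R, #(G r) ≤ 32 ^ k := by
    intro r _
    by_contra hcon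
    push Not at hcon
    have hlarge : N ≤ L ^ (K * d) * #(T r) := by
      by_contra h
      simp only [hG, if_neg h, Finset.card_empty] at hcon
      exact absurd hcon (Nat.not_lt_zero _)
    have hprop : ∀ g ∈ G r, ∀ x ∈ T r, ∀ x' ∈ T r, |ip g (x - x')| ≤ (k : ℤ) := by
      intro g hg
      simp only [hG, if_pos hlarge] at hg
      exact (Finset.mem_filter.1 hg).2
    have h1 := card_T_le (k := k) (s := k) (Q := m * q) (T r) (hTbox r) (G r) hprop hcon
    have h2 : N ≤ L ^ (K * d) * ((2 * (m * q) + 1) ^ (9 * k) * (3 ^ (10 * k) * 2 ^ k)) :=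
      hlarge.trans (Nat.mul_le_mul_left _ h1)
    have h3 : (2 * (m * q) + 1) ^ (9 * k) ≤ M ^ (9 * k) := by
      apply Nat.pow_le_pow_left
      rw [hM]
      have : 1 ≤ m * q := Nat.one_le_iff_ne_zero.2 (by positivity)
      nlinarith
    have h4 : L ^ (K * d) * (3 ^ (10 * k) * 2 ^ k) = q ^ k := by
      rw [hq]; unfold qq
      rw [mul_pow, mul_pow, ← pow_mul, ← pow_mul, hd]
      have : K * (10 * k) = 10 * K * k := by ring
      rw [this]; ring
    have h5 : N ≤ M ^ (9 * k) * q ^ k := by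
      calc N ≤ L ^ (K * d) * ((2 * (m * q) + 1) ^ (9 * k) * (3 ^ (10 * k) * 2 ^ k)) := h2
        _ ≤ L ^ (K * d) * (M ^ (9 * k) * (3 ^ (10 * k) * 2 ^ k)) :=
            Nat.mul_le_mul_left _ (Nat.mul_le_mul_right _ h3)
        _ = M ^ (9 * k) * (L ^ (K * d) * (3 ^ (10 * k) * 2 ^ k)) := by ring
        _ = _ := by rw [h4]
    have h6 : N = M ^ (9 * k) * M ^ k := by
      rw [hN, hd, ← pow_add]; congr 1; ring
    have h7 : q ^ k < M ^ k := by
      apply Nat.pow_lt_pow_left _ (by omega)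
      rw [hM]
      have : 1 ≤ m * q := Nat.one_le_iff_ne_zero.2 (by positivity)
      nlinarith
    have h8 : M ^ (9 * k) * q ^ k < M ^ (9 * k) * M ^ k :=
      Nat.mul_lt_mul_of_pos_left h7 (by positivity)
    omega
  -- the box of digits
  set Xb := Fintype.piFinset (fun _ : Fin d => Finset.Icc (0 : ℤ) (q : ℤ)) with hXb
  have hXbcard : #Xb = (q + 1) ^ d := by
    rw [hXb, Fintype.card_piFinset, Finset.prod_const, Finset.card_univ, Fintype.card_fin,
      Int.card_Icc]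
    congr 1
  have hXbne : Xb.Nonempty := by
    rw [← Finset.card_pos, hXbcard]; positivity
  set cen : (Fin d → ℤ) → (Fin d → ℤ) := fun x i => 2 * x i - q with hcen
  set Bad : (Fin d → ℤ) → Finset (Finset (Fin d)) := fun x =>
    univ.filter (fun g => (s : ℝ) < |((ip g (cen x) : ℤ) : ℝ)|) with hBad
  have hBadcard : ∀ x ∈ Xb, #(Bad x) ≤ (2 ^ d - 1) / (4 * n) := by
    intro x hx
    have hy : ∀ i, |((cen x i : ℤ) : ℝ)| ≤ (q : ℝ) := by
      intro i
      rw [hXb, Fintype.mem_piFinset] at hx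
      have h1 := Finset.mem_Icc.1 (hx i)
      have h2 : |cen x i| ≤ (q : ℤ) := by
        rw [hcen, abs_le]
        constructor <;> simp only <;> linarith [h1.1, h1.2]
      exact_mod_cast h2
    have h1 := conc (d := d) (by omega) (q := (q : ℝ)) (t := (s : ℝ)) (by exact_mod_cast hq1)
      (Nat.cast_nonneg s) (cen x) hy
    have h2 := exp_big (m := m) (q := q) (K := K) hm hq1 hK (s := s) (k := k) (n := n) (d := d)
      rfl rfl rfl rfl
    have h3 : 4 * n * #(Bad x) < 2 ^ d := by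
      rcases Nat.eq_zero_or_pos #(Bad x) with h | h
      · rw [h, mul_zero]; positivity
      · have h' : (0 : ℝ) < #(Bad x) := by exact_mod_cast h
        have h4 : (#(Bad x) : ℝ) * (8 * n) < 2 * 2 ^ d :=
          lt_of_lt_of_le (mul_lt_mul_of_pos_left h2 h') h1
        have h5 : (4 * n * #(Bad x) : ℝ) < 2 ^ d := by linarith
        exact_mod_cast h5
    rw [Nat.le_div_iff_mul_le (by omega)]
    have : #(Bad x) * (4 * n) = 4 * n * #(Bad x) := by ring
    omega
  have hineq : #R * (32 ^ k) ^ n + 2 * (n * ((2 ^ d - 1) / (4 * n) *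
      (Fintype.card (Finset (Fin d))) ^ (n - 1))) < (Fintype.card (Finset (Fin d))) ^ n := by
    rw [Fintype.card_finset, Fintype.card_fin, hRcard]
    have h1 := count_ineq (m := m) (q := q) (K := K) (L := L) hm hL hK hLq hk1 hn
    rw [← hM, ← hd, ← hN, ← hR₀] at h1
    have h2 : 4 * n * ((2 ^ d - 1) / (4 * n)) < 2 ^ d := by
      have h3 := Nat.mul_div_le (2 ^ d - 1) (4 * n)
      have h4 : 0 < 2 ^ d := by positivity
      omega
    have h5 : (2 ^ d) ^ n = 2 ^ d * (2 ^ d) ^ (n - 1) := by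
      rw [← pow_succ']
      congr 1; omega
    have h6 : 4 * n * ((2 ^ d - 1) / (4 * n)) * (2 ^ d) ^ (n - 1) < (2 ^ d) ^ n := by
      rw [h5]
      exact Nat.mul_lt_mul_of_pos_right h2 (by positivity)
    have h7 : 2 * (2 * (n * ((2 ^ d - 1) / (4 * n) * (2 ^ d) ^ (n - 1)))) =
        4 * n * ((2 ^ d - 1) / (4 * n)) * (2 ^ d) ^ (n - 1) := by ring
    omega
  obtain ⟨γ, hγ1, hγ2⟩ := exists_choice n R G (32 ^ k) ((2 ^ d - 1) / (4 * n)) hGcard Xb hXbne
    Bad hBadcard hineq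
  refine ⟨q, d, hq1, by omega, Xb.filter (fun x => ∀ j, γ j ∉ Bad x), ?_, ?_, ?_⟩
  · intro x hx i
    have h1 := (Finset.mem_filter.1 hx).1
    rw [hXb, Fintype.mem_piFinset] at h1
    exact Finset.mem_Icc.1 (h1 i)
  · rw [← hXbcard]; exact hγ2
  · intro f
    by_contra hcon
    push Not at hcon
    set X := Xb.filter (fun x => ∀ j, γ j ∉ Bad x) with hX
    -- rounding
    have hR₀pos : 0 < R₀ := by rw [hR₀]; positivity
    have hround := fun j => exists_round (f j) hR₀pos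
    choose r hrlt δ hδ hfr using hround
    have hrR : r ∈ R := by
      rw [hR, Fintype.mem_piFinset]
      exact fun j => Finset.mem_range.2 (hrlt j)
    obtain ⟨j, hj⟩ := hγ1 r hrR
    apply hj
    -- differences of elements of `S r` lie in the Bohr set
    have hdiff : ∀ a ∈ S r, ∀ b ∈ S r, ∃ y : Fin d → ℤ, (a : ℤ) - b = ev (M : ℤ) y ∧
        (∀ i, |y i| ≤ ((m * q : ℕ) : ℤ)) ∧ |ip (γ j) y| ≤ (k : ℤ) := by
      intro a ha b hb
      have ha' := hSlt r a ha
      have hb' := hSlt r b hb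
      have h1 : |(a : ℤ) - b| ≤ (N : ℤ) := by
        rw [abs_le]; constructor <;> omega
      have h2 : ∀ j, ‖((a : ℤ) - b) • f j‖ ≤ 2 / L := by
        intro j
        rw [hfr j]
        exact norm_le_of_cell hL hN1 (hδ j) ha' hb' (hScell r a ha b hb j)
      obtain ⟨u, v, hu, hv, huv⟩ := hcon ((a : ℤ) - b) h1 h2
      refine ⟨∑ i, u i - ∑ i, v i, huv, ?_, ?_⟩
      · intro i
        rw [Pi.sub_apply, Finset.sum_apply, Finset.sum_apply]
        have hb1 : ∀ x ∈ X, 0 ≤ x i ∧ x i ≤ (q : ℤ) := by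
          intro x hx
          have h1 := (Finset.mem_filter.1 hx).1
          rw [hXb, Fintype.mem_piFinset] at h1
          exact Finset.mem_Icc.1 (h1 i)
        have e1 : 0 ≤ ∑ c, u c i := Finset.sum_nonneg fun c _ => (hb1 _ (hu c)).1
        have e2 : 0 ≤ ∑ c, v c i := Finset.sum_nonneg fun c _ => (hb1 _ (hv c)).1
        have e3 : ∑ c, u c i ≤ ((m * q : ℕ) : ℤ) := by
          calc _ ≤ ∑ _c : Fin m, (q : ℤ) := Finset.sum_le_sum fun c _ => (hb1 _ (hu c)).2
            _ = _ := by rw [Finset.sum_const, Finset.card_univ, Fintype.card_fin]; simp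
        have e4 : ∑ c, v c i ≤ ((m * q : ℕ) : ℤ) := by
          calc _ ≤ ∑ _c : Fin m, (q : ℤ) := Finset.sum_le_sum fun c _ => (hb1 _ (hv c)).2
            _ = _ := by rw [Finset.sum_const, Finset.card_univ, Fintype.card_fin]; simp
        rw [abs_le]; constructor <;> linarith
      · have hsl : ∀ x ∈ X, |ip (γ j) (cen x)| ≤ (s : ℤ) := by
          intro x hx
          have h1 := (Finset.mem_filter.1 hx).2 j
          by_contra h2
          push Not at h2
          apply h1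
          rw [hBad]
          refine Finset.mem_filter.2 ⟨Finset.mem_univ _, ?_⟩
          exact_mod_cast h2
        have hcenx : ∀ x : Fin d → ℤ, ip (γ j) (cen x) =
            2 * ip (γ j) x - ip (γ j) (fun _ => (q : ℤ)) := by
          intro x
          have : cen x = x + x - (fun _ => (q : ℤ)) := by
            funext i; rw [hcen]; simp only [Pi.sub_apply, Pi.add_apply]; ring
          rw [this, ip_sub, ip_add]; ring
        rw [ip_sub, ip_sum, ip_sum]
        have e1 : 2 * (∑ i, ip (γ j) (u i) - ∑ i, ip (γ j) (v i)) =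
            ∑ i, (ip (γ j) (cen (u i)) - ip (γ j) (cen (v i))) := by
          rw [mul_sub, Finset.mul_sum, Finset.mul_sum, ← Finset.sum_sub_distrib]
          refine Finset.sum_congr rfl fun i _ => ?_
          rw [hcenx, hcenx]; ring
        have e2 : |2 * (∑ i, ip (γ j) (u i) - ∑ i, ip (γ j) (v i))| ≤ 2 * (k : ℤ) := by
          rw [e1]
          calc _ ≤ ∑ i, |ip (γ j) (cen (u i)) - ip (γ j) (cen (v i))| :=
                Finset.abs_sum_le_sum_abs _ _
            _ ≤ ∑ _i : Fin m, (2 * (s : ℤ)) := by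
                refine Finset.sum_le_sum fun i _ => ?_
                have := abs_sub (ip (γ j) (cen (u i))) (ip (γ j) (cen (v i)))
                have h1 := hsl _ (hu i)
                have h2 := hsl _ (hv i)
                rw [abs_le] at h1 h2 ⊢
                constructor <;> linarith [h1.1, h1.2, h2.1, h2.2]
            _ = 2 * (k : ℤ) := by
                rw [Finset.sum_const, Finset.card_univ, Fintype.card_fin, hk]
                simp; ring
        rw [abs_mul, abs_two] at e2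
        linarith
    have hlarge : N ≤ L ^ (K * d) * #(T r) := by
      refine (hSbig r).trans (Nat.mul_le_mul_left _ ?_)
      apply Finset.card_le_card_of_surjOn (fun x => ((n₀ r : ℤ) + ev (M : ℤ) x).toNat)
      intro a ha
      obtain ⟨y, hy1, hy2, _⟩ := hdiff a ha (n₀ r) (hn₀ r)
      refine ⟨y, ?_, ?_⟩
      · rw [Finset.mem_coe, hT]
        refine Finset.mem_filter.2 ⟨?_, a, ha, ?_⟩
        · rw [hbox, Fintype.mem_piFinset]
          exact fun i => Finset.mem_Icc.2 (abs_le.1 (hy2 i))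
        · linarith
      · show ((n₀ r : ℤ) + ev (M : ℤ) y).toNat = a
        rw [← hy1]; simp
    simp only [hG, if_pos hlarge]
    refine Finset.mem_filter.2 ⟨Finset.mem_univ _, ?_⟩
    intro x hx x' hx'
    obtain ⟨a, ha, hax⟩ := (Finset.mem_filter.1 hx).2
    obtain ⟨b, hb, hbx⟩ := (Finset.mem_filter.1 hx').2
    obtain ⟨y, hy1, hy2, hy3⟩ := hdiff a ha b hb
    have h1 : ev (M : ℤ) (x - x' - y) = 0 := by
      rw [ev_sub, ev_sub]; linarith
    have h2 : x - x' - y = 0 := by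
      apply eq_zero_of_ev (M := (M : ℤ)) (by exact_mod_cast hM1) _ _ h1
      intro i
      have a1 := abs_le.1 (hTbox r x hx i)
      have a2 := abs_le.1 (hTbox r x' hx' i)
      have a3 := abs_le.1 (hy2 i)
      have a4 : (M : ℤ) = 4 * ((m * q : ℕ) : ℤ) := by rw [hM]; push_cast; ring
      have a5 : (1 : ℤ) ≤ ((m * q : ℕ) : ℤ) := by
        exact_mod_cast Nat.one_le_iff_ne_zero.2 (by positivity)
      rw [Pi.sub_apply, Pi.sub_apply, a4, abs_lt]
      constructor <;> linarith [a1.1, a1.2, a2.1, a2.2, a3.1, a3.2]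
    rw [sub_eq_zero] at h2
    rw [h2]; exact hy3

end Pool.Agent.Lib.MP_3c7b25_co
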